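import Pool.Agent.TBP.StmtsA

set_option autoImplicit false

namespace Pool.Agent.TBP.H82

open Finset

/-- **EUL**: upper bound by an Euler product. -/
theorem eul : EulStmt := by
  classical
  intro P N u hP hu
  set u' : ℕ → ℕ → ℝ := fun p a => if a = 0 then 1 else u p a with hu'
  have hu'0 : ∀ p a, 0 ≤ u' p a := by
    intro p a
    simp only [hu']
    split_ifs
    · exact zero_le_one
    · exact hu p a
  set t : ℕ → Finset ℕ := fun _ => insert 0 (Icc 1 N) with ht
  set F : ((p : ℕ) → p ∈ P → ℕ) → ℝ := fun g => ∏ x ∈ P.attach, u' x.1 (g x.1 x.2) with hF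
  have e1 : ∏ p ∈ P, (1 + ∑ a ∈ Icc 1 N, u p a) = ∑ g ∈ P.pi t, F g := by
    rw [hF, ← Finset.prod_sum]
    refine Finset.prod_congr rfl (fun p _ => ?_)
    rw [ht]
    simp only
    rw [Finset.sum_insert (by simp)]
    congr 1
    · refine Finset.sum_congr rfl (fun a ha => ?_)
      rw [Finset.mem_Icc] at ha
      simp only [hu']
      rw [if_neg (by omega)]
  set S : Finset ℕ := (Icc 1 N).filter (fun d => d.primeFactors ⊆ P) with hS
  set φ : ℕ → ((p : ℕ) → p ∈ P → ℕ) := fun d p _ => d.factorization p with hφ
  have hw : ∀ d ∈ S, ∏ p ∈ d.primeFactors, u p (d.factorization p) = F (φ d) := by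
    intro d hd
    rw [hS, Finset.mem_filter, Finset.mem_Icc] at hd
    have h1 : F (φ d) = ∏ p ∈ P, u' p (d.factorization p) := by
      simp only [hF, hφ]
      exact Finset.prod_attach P (fun p => u' p (d.factorization p))
    rw [h1]
    have h2 : ∏ p ∈ d.primeFactors, u p (d.factorization p) =
        ∏ p ∈ d.primeFactors, u' p (d.factorization p) := by
      refine Finset.prod_congr rfl (fun p hp => ?_)
      have h3 : d.factorization p ≠ 0 := by
        have : p ∈ d.factorization.support := by rwa [Nat.support_factorization]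
        exact Finsupp.mem_support_iff.mp this
      simp only [hu']
      rw [if_neg h3]
    rw [h2]
    refine Finset.prod_subset hd.2 (fun p _ hp => ?_)
    have h3 : d.factorization p = 0 := by
      have : p ∉ d.factorization.support := by rwa [Nat.support_factorization]
      exact Finsupp.notMem_support_iff.mp this
    simp only [hu']
    rw [if_pos h3]
  have hinj : Set.InjOn φ S := by
    intro d hd d' hd' hdd
    have hd1 := hd
    have hd1' := hd'
    rw [hS, Finset.mem_coe, Finset.mem_filter, Finset.mem_Icc] at hd1 hd1'
    apply Nat.eq_of_factorization_eq (by omega) (by omega)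
    intro p
    by_cases hp : p ∈ P
    · have := congrFun (congrFun hdd p) hp
      simpa [hφ] using this
    · have h1 : p ∉ d.factorization.support := by
        rw [Nat.support_factorization]; exact fun h => hp (hd1.2 h)
      have h2 : p ∉ d'.factorization.support := by
        rw [Nat.support_factorization]; exact fun h => hp (hd1'.2 h)
      rw [Finsupp.notMem_support_iff.mp h1, Finsupp.notMem_support_iff.mp h2]
  have hsub : S.image φ ⊆ P.pi t := by
    intro g hg
    rw [Finset.mem_image] at hg
    obtain ⟨d, hd, rfl⟩ := hg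
    rw [hS, Finset.mem_filter, Finset.mem_Icc] at hd
    rw [Finset.mem_pi]
    intro p hp
    have h1 : d.factorization p < d := Nat.factorization_lt p (by omega)
    simp only [hφ, ht, Finset.mem_insert, Finset.mem_Icc]
    omega
  rw [e1, Finset.sum_congr rfl hw]
  calc ∑ d ∈ S, F (φ d) = ∑ g ∈ S.image φ, F g := by
        rw [Finset.sum_image hinj]
    _ ≤ ∑ g ∈ P.pi t, F g :=
        Finset.sum_le_sum_of_subset_of_nonneg hsub
          (fun g _ _ => Finset.prod_nonneg (fun x _ => hu'0 _ _))

end Pool.Agent.TBP.H82
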